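import Pool.Agent.Helper64.LN.GenStmt
import Pool.Agent.Helper64.LN.GenF
import Pool.Agent.Helper64.LN.All

set_option autoImplicit false

open Topology Set Metric UpperHalfPlane Pool.Agent.Helper64.LN.GenStmt
open Pool.Agent.Helper78.BigMap

universe v

namespace Pool.Agent.Results.MP_2b9d24_gt.DistinguishedEnd

/-- Let `S` be the connected surface `X \ E` with oriented atlas `O`, where `E` is a closed
totally disconnected set of points of `X` which have disc neighbourhoods, and where `X` has one
end, which is fixed by all homeomorphisms of `S`.  For every `i` let `P_i` be a set of ends of
`S` (points of `E`), invariant under all homeomorphisms of `S`, such that `X` minus `P_i` and the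
point `p` is uniformized by the upper half plane, and let `K_i` be a compact set containing only
finitely many points of `P_i` and bounded by a simple closed geodesic, such that the sets `K_i`
form an exhaustion of `X`; moreover, let some homeomorphisms `y_i` of `S` with disjoint compact
supports move each of these geodesics to a curve crossing it.

Such data exist for every surface `S` with exactly one non-planar end (with `P_i` empty; `X` is
obtained from `S` by filling in the planar ends), and for every planar surface `S` whose space of
ends is countable and has exactly one point of maximal Cantor-Bendixson rank (`X` is the plane,
and `P_i` consists of the ends of rank at least the maximal rank of the ends in `K_i`).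

Then the mapping class group of `S` has a finite quotient in which the image of the pure mapping
class group is not abelian. -/
theorem result {X : Type v} [TopologicalSpace X] [T2Space X] {E : Set X} [ConnectedSpace (Sf E)]
    (O : Set (OpenPartialHomeomorph (Sf E) ℂ)) (p : Sf E) (s : ℕ → Step E)
    (h : Surf O p s) : PureNonabelianQuotient O :=
  Pool.Agent.Helper64.LN.gsurf_main Pool.Agent.Helper64.LN.glg
    (Pool.Agent.Helper85.LN.goalEX2 Pool.Agent.Helper97.LN.goalEX1) h

end Pool.Agent.Results.MP_2b9d24_gt.DistinguishedEnd
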