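import Pool.Agent.Helper64.PQ.AsmA
import Pool.Agent.Helper64.PQ.Stmt
import Pool.Agent.Helper64.PQ.AsmF
import Pool.Agent.Helper89.BigA
import Pool.Agent.Helper42.PQ.A1
import Pool.Agent.Helper94.PQ.A2
import Pool.Agent.Helper64.PQ.A3
import Pool.Agent.Helper87.PQ.A4
import Pool.Agent.Helper40.PQ.A5
import Pool.Agent.Helper75.PQ.A6
import Pool.Agent.Helper83.PQ.A7
import Pool.Agent.Helper82.PQ.B1
import Pool.Agent.Helper8.PQ.B2
import Pool.Agent.Helper93.PQ.B3
import Pool.Agent.Helper67.PQ.C0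
import Pool.Agent.Helper59.PQ.C1
import Pool.Agent.Helper56.PQ.C2
import Pool.Agent.Helper49.PQ.C3
import Pool.Agent.Helper90.PQ.C4
import Pool.Agent.Helper32.PQ.C5
import Pool.Agent.Helper61.PQ.C6
import Pool.Agent.Helper61.PQ.C7
import Pool.Agent.Helper32.PQ.C8
import Pool.Agent.Helper20.PQ.C9
import Pool.Agent.Helper16.PQ.E1
import Pool.Agent.Helper69.PQ.E2
import Pool.Agent.Helper19.PQ.E3
import Pool.Agent.Helper4.PQ.E4
import Pool.Agent.Helper35.PQ.E5
import Pool.Agent.Helper15.PQ.F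

set_option autoImplicit false

open Topology Set Metric UpperHalfPlane Pool.Agent.Helper64.PQ.Stmt Pool.Agent.Helper78.BigMap

universe v

namespace Pool.Agent.Results.MP_2b9d24_gt.InfinitelyManyPunctures

/-- Let `X` be a Hausdorff space containing a locally finite sequence of disjoint closed discs
(`J i` of the closed unit disc), and let `S = Sf J` be `X` without three interior points
`J i (-1/4)`, `J i 0`, `J i (1/4)` of every disc, with an oriented atlas `O` which contains the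
given charts of the thrice punctured discs.  Suppose that for every `i` the surface `X` without
the two points `J i (-1/4)`, `J i (1/4)` is uniformized by the upper half plane, these two points
being cusps.  (Every surface `S` with infinitely many isolated planar ends arises in this way.)
Then the pure mapping class group of `S` has a finite non-abelian quotient. -/
theorem result {X : Type v} [TopologicalSpace X] [T2Space X]
    (J : ℕ → OpenPartialHomeomorph ℂ X) (O : Set (OpenPartialHomeomorph (Sf J) ℂ))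
    (k : ℕ → OpenPartialHomeomorph ℂ (Sf J)) (u : ℕ → ℍ → X) (h : PSurf J O k u) :
    HasFNQ (PM O) := by
  obtain ⟨hJ, hO, hk, hu⟩ := h
  have hJ' : Pool.Agent.Helper64.PQ.Data J := ⟨hJ.source, hJ.disj, hJ.closed⟩
  have hu' : ∀ i, Pool.Agent.Helper64.PQ.Unif (J i (-1/4)) (J i (1/4)) (u i) := by
    intro i
    obtain ⟨h1, h2, h3, ⟨A, h4, h5⟩, ⟨B, h6, h7⟩⟩ := hu i
    exact ⟨h1, h2, h3, ⟨A, h4, h5⟩, ⟨B, h6, h7⟩⟩
  have a1 := Pool.Agent.Helper42.PQ.goalA1
  have a2 := Pool.Agent.Helper94.PQ.goalA2 a1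
  have a5 := Pool.Agent.Helper40.PQ.goalA5 Pool.Agent.Helper64.PQ.goalA3
    Pool.Agent.Helper87.PQ.goalA4
  have a7 := Pool.Agent.Helper83.PQ.goalA7 Pool.Agent.Helper75.PQ.goalA6
  have b1 := Pool.Agent.Helper82.PQ.goalB1
  have b2 := Pool.Agent.Helper8.PQ.goalB2 b1
  have b3 := Pool.Agent.Helper93.PQ.goalB3 b1
  have c0 := Pool.Agent.Helper67.PQ.goalC0.{v}
  have c2 := Pool.Agent.Helper56.PQ.goalC2 Pool.Agent.Helper59.PQ.goalC1
  have c3 := Pool.Agent.Helper49.PQ.goalC3.{v}
  have c4 := Pool.Agent.Helper90.PQ.goalC4.{v} c0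
  have c5 := Pool.Agent.Helper32.PQ.goalC5 c2 b1
  have c6 := Pool.Agent.Helper61.PQ.goalC6.{v} c0 c3 c4 c5
  have c7 := Pool.Agent.Helper61.PQ.goalC7.{v} c0 c3 c4
  have c8 := Pool.Agent.Helper32.PQ.goalC8.{v} c0
  have c9 := Pool.Agent.Helper20.PQ.goalC9.{v}
  have e4 := Pool.Agent.Helper4.PQ.goalE4.{v}
  exact Pool.Agent.Helper64.PQ.main_of_goals (Pool.Agent.Helper64.PQ.goalA a2 a5 a7)
    (Pool.Agent.Helper64.PQ.goalBC c0 c6 c7 c8 c9 b2 b3 c3 c4 e4)
    Pool.Agent.Helper16.PQ.goalE1 Pool.Agent.Helper69.PQ.goalE2 Pool.Agent.Helper19.PQ.goalE3 e4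
    Pool.Agent.Helper35.PQ.goalE5' Pool.Agent.Helper15.PQ.goalF
    Pool.Agent.Helper89.BigA.goalA3 hJ' hO hk u hu'

end Pool.Agent.Results.MP_2b9d24_gt.InfinitelyManyPunctures
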