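import Pool.Agent.Helper78.BigMap.Assembly
import Pool.Agent.Helper89.BigA
import Pool.Agent.Helper31.BigB
import Pool.Agent.Helper90.BigC12
import Pool.Agent.Helper87.Big.C3E2
import Pool.Agent.Helper67.Big.C4
import Pool.Agent.Helper53.BigD123
import Pool.Agent.Helper96.Big.D45
import Pool.Agent.Helper70.Big.BigD6
import Pool.Agent.Helper3.BigD7
import Pool.Agent.Helper87.Big.E1
import Pool.Agent.Helper40.BigF1

set_option autoImplicit false

open Topology Set Metric Pool.Agent.Helper78.BigMap

universe u

namespace Pool.Agent.Results.MP_2b9d24_gt.NonisolatedPlanarEnd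

/-- Let `S` be a Hausdorff surface with oriented atlas `O`, and suppose that the disc of radius
`2` minus an infinite compact totally disconnected set `E` of reals in `(-1, 1)` is embedded in
`S` by a chart parametrization `j` from the atlas, the part over the closed unit disc being
closed in `S`.  (Every surface with a non-isolated planar end contains such a piece.)
Then the pure mapping class group of `S` has a finite non-abelian quotient. -/
theorem result {S : Type u} [TopologicalSpace S] [T2Space S]
    (O : Set (OpenPartialHomeomorph S ℂ)) (hO : IsOrientedAtlas O)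
    (E : Set ℝ) (hEc : IsCompact E) (hEt : IsTotallyDisconnected E) (hEi : E.Infinite)
    (hE1 : E ⊆ Ioo (-1) 1)
    (j : OpenPartialHomeomorph ℂ S) (hjO : j.symm ∈ O)
    (hj : j.source = ball (0 : ℂ) 2 \ inC E)
    (hcl : IsClosed (j '' (closedBall (0 : ℂ) 1 \ inC E))) :
    ∃ (F : Type) (_ : Group F) (_ : Finite F) (Φ : PMap O →* F),
      Function.Surjective Φ ∧ ∃ x y : F, x * y ≠ y * x :=
  main_of_goals Pool.Agent.Helper89.BigA.goalA1 Pool.Agent.Helper89.BigA.goalA2
    Pool.Agent.Helper89.BigA.goalA3 Pool.Agent.Helper31.BigB.goalB1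
    Pool.Agent.Helper31.BigB.goalB2 Pool.Agent.Helper31.BigB.goalB3
    (Pool.Agent.Helper67.Big.goalC4 Pool.Agent.Helper90.Big.goalC1)
    Pool.Agent.Helper53.BigMap.goalD1 Pool.Agent.Helper53.BigMap.goalD2
    Pool.Agent.Helper53.BigMap.goalD3 Pool.Agent.Helper96.Big.goalD4
    Pool.Agent.Helper96.Big.goalD5 Pool.Agent.Helper70.BigD6.goalD6
    Pool.Agent.Helper3.BigD7.goalD7 Pool.Agent.Helper87.Big.goalE1
    (Pool.Agent.Helper87.Big.goalE2 Pool.Agent.Helper90.Big.goalC2)
    Pool.Agent.Helper78.BigMap.goalF1 hO ⟨hEc, hEt, hE1, hj, hcl⟩ hEi hjO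

end Pool.Agent.Results.MP_2b9d24_gt.NonisolatedPlanarEnd
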